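import Pool.Agent.W282.LF.Top
import Pool.Agent.W216.LF.CMR
import Pool.Agent.W216.LF.TR
import Pool.Agent.W320.LF.ISO
import Pool.Agent.W346.LF.Endo
import Pool.Agent.W578.LF.QA
import Pool.Agent.W466.EM

/-!
# MP_a325a5_ag: Zilber-Pink for almost all scalings of projective sets of any dimension mapped to the
mixed Shimura varieties `E_L^n × G_m^q`, `E_L` the Legendre family of elliptic curves

The ambient variety is the mixed Shimura variety `S = E_L^n × G_m^q`, where `E_L^n` is the `n`-th
fibre power of the Legendre family of elliptic curves `y² = x (x - 1) (x - t)` over the modular curve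
`Y(2)`, the line of the parameters `t ≠ 0, 1`. Its dimension is `1 + n + q`. Its points are
`(t, P, u)`, `P_i` points of the Legendre curve with parameter `t` and `u_j ≠ 0`. Its coordinates
are `t`, the Legendre coordinates `x(P_i)` and the `u_j`. (`leg t` is the Legendre curve in the
coordinate `x - (1 + t) / 3`, which gives it the form `y² = x³ + A x + B`; `lx` is the Legendre
coordinate `x`.)

Let `Y ⊆ P^N` be a complex projective algebraic set, defined by forms `G l` over a countable field
`K ⊂ ℂ`. Let `f_0 = a_0 / b_0` (for the coordinate `t`), `f_j = a_j / b_j` (for the coordinates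
`u_j`) be quotients of forms of the same degree over `K`, and `f_i = a_i / (b_0 b_i)` (for the
coordinates `x (P_i)`) quotients of forms of the same degree with the denominator of `f_0` as a
factor; every rational function can be written in this way. For a vector `c` of nonzero numbers let
`X_c ⊂ S` be the set of all points with coordinates `t = f_0 (y) / c_0`,
`x (P_i) = f_i (y) / (c_0 c_i)`, `u_j = f_j (y) / c_j`, where `y` runs through the points of `Y`
with `b_0 (y) ≠ 0`, `b_j (y) ≠ 0` for all `j`; here `P_i` is the origin if `b_i (y) = 0`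
(see `scaled`). This is a constructible set. Its Zariski closure `X` contains it as a set with dense
interior, and so the results below say that `X` has no atypical intersections, except for those
contained in a proper closed subset of `X`.

Suppose that the divisors `a_s b_s = 0` and the coordinate hyperplanes of `P^N` are in general
position: no point of `Y` lies on `m + 1` of them (`hpos`; for `Y` of dimension `m` this is the
case in general, and for the hyperplanes it can be achieved by a linear change of coordinates).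
Nothing else is assumed.

The special subvarieties of `S` are the components of the sets `Special.locus`: there are

* the sets of all `(t, P)` such that the `P_i` satisfy given linear relations with integral
  coefficients up to torsion (`gen`),
* the sets of all `(t, P)` such that `t` is a given number with complex multiplication by the order
  generated by `φ` and the `P_i` satisfy given linear relations with coefficients in `ℤ + ℤ φ` up
  to torsion (`cm`),

times torsion cosets of `G_m^q`. Here more general sets are allowed: instead of torsion cosets of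
`G_m^q` all cosets of algebraic subgroups by points of the division hull of a finitely generated
subgroup of `G_m (K)^q` (`Γm`), and fibres of `E_L^n` over all `t` such that the `j`-invariant of the
Legendre curve is integral, and integral relations in them (`fib`).

The scalings `c_0`, `c_i` are here `β`-th roots of positive integers and the `c_j` are positive
integers. If these integers are spread out (`SpreadL`) then `X_c` has no atypical intersection
with any such `Z`: every point of `X_c ∩ Z` has transcendence degree at most `m - codim Z` over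
`K`, and every irreducible constructible set of points of `X_c ∩ Z` has dimension at most
`m - codim Z`. In particular `X_c ∩ Z` is empty if the codimension of `Z` is larger than `m`.
The condition holds for all members, with at most `O (√H)` exceptions `k ≤ H`, of the families
`c_i ^ β = ∏_l (k + l)^(e l i)`, `c_j = ∏_l (k + l)^(a l j)` with exponents satisfying `GoodExpL`;
for example `e l none = β`, `e l (some i) = β + 1 + i` for `n < β` and `a l j = (l + 1)^j`, see
`Pool.Agent.W282.LF.goodExpL_exists`.
-/

namespace Pool.Agent.Results.MP_a325a5_ag.LegendreScaledImages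

open MvPolynomial Pool.Agent.W466.EP Pool.Agent.W282.ZP Pool.Agent.W282.LF

/-- The complex points of `E_L^n × G_m^q`. -/
structure Amb (n q : ℕ) where
  t : ℂ
  t0 : t ≠ 0
  t1 : t ≠ 1
  P : Fin n → (leg t).Point
  u : Fin q → ℂˣ

/-- The index set of the coordinates `t` (`none`), `x (P_i)`, `u_j`. -/
abbrev Ind (n q : ℕ) : Type := Option (Fin n) ⊕ Fin q

variable {n q : ℕ}

/-- The coordinates `t`, `x (P_i)` (which is `0` by definition if `P_i` is the origin) and `u_j`. -/
noncomputable def coords (z : Amb n q) : Ind n q → ℂ :=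
  Sum.elim (fun i => i.elim z.t (fun i => lx (z.P i))) (fun j => (z.u j : ℂ))

/-- The value of a form. -/
noncomputable def ev {K : Subfield ℂ} {N : ℕ} (y : Fin (N + 1) → ℂ)
    (P : MvPolynomial (Fin (N + 1)) K) : ℂ :=
  aeval y P

/-- `y` is a vector of homogeneous coordinates of a point of the projective algebraic set `Y` defined
by the forms `G l`. -/
def OnY {K : Subfield ℂ} {N : ℕ} {κ : Type*} (G : κ → MvPolynomial (Fin (N + 1)) K)
    (y : Fin (N + 1) → ℂ) : Prop :=
  y ≠ 0 ∧ ∀ l, ev y (G l) = 0

/-- The set `X_c`. -/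
def scaled {K : Subfield ℂ} {N : ℕ} {κ : Type*} (G : κ → MvPolynomial (Fin (N + 1)) K)
    (a b : Ind n q → MvPolynomial (Fin (N + 1)) K) (c : Ind n q → ℂ) : Set (Amb n q) :=
  {z | ∃ y, OnY G y ∧ ev y (b (Sum.inl none)) ≠ 0 ∧
    c (Sum.inl none) * ev y (b (Sum.inl none)) * z.t = ev y (a (Sum.inl none)) ∧
    (∀ i : Fin n, (z.P i = 0 ∧ ev y (b (Sum.inl (some i))) = 0) ∨
      (z.P i ≠ 0 ∧ ev y (b (Sum.inl (some i))) ≠ 0 ∧
        c (Sum.inl none) * c (Sum.inl (some i)) * ev y (b (Sum.inl none)) *
          ev y (b (Sum.inl (some i))) * lx (z.P i) = ev y (a (Sum.inl (some i))))) ∧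
    ∀ j : Fin q, ev y (b (Sum.inr j)) ≠ 0 ∧
      c (Sum.inr j) * ev y (b (Sum.inr j)) * (z.u j : ℂ) = ev y (a (Sum.inr j))}

/-- The elliptic part of a special subvariety: `gen M` is the set of all points of `E_L^n` with the
relations in `M`, `fib t hj M` is the same in the fibre at `t`, where the `j`-invariant is integral,
and `cm t φ M` is the set of the points in the fibre at `t` with the relations in `M`, where `φ` is a
complex multiplication. -/
inductive SpecialE (n : ℕ)
  | gen (M : Submodule ℤ (Fin n → ℤ))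
  | fib (t : ℂ) (hj : IsIntegral ℤ (jinv t)) (M : Submodule ℤ (Fin n → ℤ))
  | cm (t : ℂ) (φ : CMLeg t) (M : Submodule ℤ (Fin n → ℤ × ℤ))

/-- The codimension of the elliptic part. If `M` is a module over the order generated by `φ` then
its rank over `ℤ` is twice its rank over the order; in general the order generates a submodule with
a rank at least half the rank of `M`. -/
noncomputable def SpecialE.codim : SpecialE n → ℕ
  | .gen M => Module.finrank ℤ M
  | .fib _ _ M => 1 + Module.finrank ℤ M
  | .cm _ _ M => 1 + (Module.finrank ℤ M + 1) / 2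

/-- The points `(t, P)` of the elliptic part, with torsion of order `T`. -/
def SpecialE.Has (T : ℕ) : SpecialE n → (t : ℂ) → (Fin n → (leg t).Point) → Prop
  | .gen M, _, P => ∀ r ∈ M, T • ∑ i, r i • P i = 0
  | .fib t₀ _ M, t, P => t = t₀ ∧ ∀ r ∈ M, T • ∑ i, r i • P i = 0
  | .cm t₀ φ M, t, P => ∃ h : t = t₀, ∀ r ∈ M,
      T • ∑ i, ((r i).1 • (h ▸ P) i + (r i).2 • φ.φ ((h ▸ P) i)) = 0

/-- A special subvariety, and more generally: `E` is the elliptic part, with torsion of order `T`,
and the torus part is a coset of the algebraic subgroup defined by `relm` by a point `pt` of the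
division hull of the group generated by `Γm`. -/
structure Special (n q : ℕ) (Γm : Finset ℂˣ) where
  E : SpecialE n
  T : ℕ
  T0 : 0 < T
  relm : Submodule ℤ (Fin q → ℤ)
  pt : Fin q → ℂˣ
  hullm : ∀ j, ∃ t : ℕ, 0 < t ∧ pt j ^ t ∈ Subgroup.closure (Γm : Set ℂˣ)

/-- The points of `Z`. -/
def Special.locus {Γm : Finset ℂˣ} (Z : Special n q Γm) : Set (Amb n q) :=
  {z | Z.E.Has Z.T z.t z.P ∧ ∀ b ∈ Z.relm, ∏ j, z.u j ^ b j = ∏ j, Z.pt j ^ b j}

/-- The codimension of `Z`. -/
noncomputable def Special.codim {Γm : Finset ℂˣ} (Z : Special n q Γm) : ℕ :=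
  Z.E.codim + Module.finrank ℤ Z.relm

/-- `V` has no intersection of dimension larger than `m - codim Z` with the sets `Z`: every point
of `V ∩ Z` has transcendence degree at most `m - codim Z` over `K`, and every irreducible closed
set `W` of vectors, such that those outside of some hypersurface `f = 0`, which does not contain
`W`, are vectors of coordinates (numbered in any way) of points of `V ∩ Z`, has dimension at most
`m - codim Z`. -/
def NoAtypical (K : Subfield ℂ) (Γm : Finset ℂˣ) (m : ℕ) (V : Set (Amb n q)) : Prop :=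
  ∀ Z : Special n q Γm,
    (∀ z ∈ V ∩ Z.locus, ∀ S : Finset (Ind n q),
      AlgebraicIndependent K (fun s : S => coords z s) → S.card + Z.codim ≤ m) ∧
    ∀ (s : ℕ) (ε : Fin s ≃ Ind n q) (W : Set (Fin s → ℂ)) (f : MvPolynomial (Fin s) ℂ),
      (∀ w ∈ W, eval w f ≠ 0 → ∃ z ∈ V ∩ Z.locus, ∀ i, w i = coords z (ε i)) →
      zcl W ⊆ W → (idealOf W).IsPrime → f ∉ idealOf W →
      zdim W + (Z.codim : Cardinal) ≤ (m : Cardinal)

/-- The data of the projective set `Y` with its map: the degrees of the forms are as described above,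
and no point of `Y` lies on `m + 1` of the divisors `a_s b_s = 0` and the coordinate hyperplanes. -/
structure IsMap {K : Subfield ℂ} {N : ℕ} {κ : Type*} (G : κ → MvPolynomial (Fin (N + 1)) K)
    (a b : Ind n q → MvPolynomial (Fin (N + 1)) K) (dg : Ind n q → ℕ) (m : ℕ) : Prop where
  hG : ∀ l, ∃ e, (G l).IsHomogeneous e
  hb : ∀ i, (b i).IsHomogeneous (dg i)
  ha0 : (a (Sum.inl none)).IsHomogeneous (dg (Sum.inl none))
  haE : ∀ i, (a (Sum.inl (some i))).IsHomogeneous (dg (Sum.inl none) + dg (Sum.inl (some i)))
  haT : ∀ j, (a (Sum.inr j)).IsHomogeneous (dg (Sum.inr j))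
  hpos : ∀ I : Finset (Ind n q ⊕ Fin (N + 1)), I.card = m + 1 → ∀ y, OnY G y →
    ∃ i ∈ I, Sum.elim (fun s => ev y (a s) * ev y (b s)) y i ≠ 0

/-- The scalings `c_0`, `c_i` are `β`-th roots of the natural numbers `Nn`, and the `c_j` are the
natural numbers `d j`. -/
def IsScaling (β : ℕ) (c : Ind n q → ℂ) (Nn : Option (Fin n) → ℕ) (d : Fin q → ℕ) : Prop :=
  (∀ i, c (Sum.inl i) ^ β = (Nn i : ℂ)) ∧ ∀ j, c (Sum.inr j) = (d j : ℂ)

/-- The number `∏_l (k + l)^(e l i)`. -/
def fam {L : ℕ} {ι : Type} (e : Fin L → ι → ℕ) (k : ℕ) (i : ι) : ℕ :=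
  ∏ l : Fin L, (k + (l : ℕ)) ^ e l i

/-- Zilber-Pink with no atypical intersections for all sufficiently spread out scalings of a
projective algebraic set mapped to the mixed Shimura variety `E_L^n × G_m^q`, in particular for all
but few members of natural one-parameter families. -/
theorem result {κ : Type*} (K : Subfield ℂ) [Countable K] (N n q m : ℕ)
    (G : κ → MvPolynomial (Fin (N + 1)) K) (a b : Ind n q → MvPolynomial (Fin (N + 1)) K)
    (dg : Ind n q → ℕ) (hY : IsMap G a b dg m)
    (Γm : Finset ℂˣ) (hΓm : ∀ γ ∈ Γm, (γ : ℂ) ∈ K) :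
    ∃ (D : ℕ) (C : ℝ), ∀ β : ℕ, 0 < β →
      (∀ (c : Ind n q → ℂ) (Nn : Option (Fin n) → ℕ) (d : Fin q → ℕ),
        IsScaling β c Nn d → SpreadL n q D β Nn d → NoAtypical K Γm m (scaled G a b c)) ∧
      ∀ (e : Fin ((q - 1) * 2 ^ q + 1) → Option (Fin n) → ℕ)
        (a' : Fin ((q - 1) * 2 ^ q + 1) → Fin q → ℕ), GoodExpL n q β e a' →
        ∀ H : ℕ, (Set.ncard {k : ℕ | 1 ≤ k ∧ k ≤ H ∧ ¬ ∀ c : Ind n q → ℂ,
          IsScaling β c (fam e k) (fam a' k) → NoAtypical K Γm m (scaled G a b c)} : ℝ) ≤
            C * √H := by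
  classical
  have hCMR : S_CMR := Pool.Agent.W216.LF.cmr Pool.Agent.W346.LF.endo Pool.Agent.W578.LF.quad
    Pool.Agent.W578.LF.algv
  -- the finite set of constants
  let Γ : Finset ℂ :=
    Γm.image (fun γ : ℂˣ => (γ : ℂ)) ∪ Γm.image (fun γ : ℂˣ => ((γ⁻¹ : ℂˣ) : ℂ))
  have hmΓ : ∀ γ ∈ Γm, (γ : ℂ) ∈ Γ ∧ ((γ⁻¹ : ℂˣ) : ℂ) ∈ Γ := fun γ hγ =>
    ⟨Finset.mem_union_left _ (Finset.mem_image_of_mem (fun γ : ℂˣ => (γ : ℂ)) hγ),
      Finset.mem_union_right _ (Finset.mem_image_of_mem (fun γ : ℂˣ => ((γ⁻¹ : ℂˣ) : ℂ)) hγ)⟩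
  have hΓK : ∀ γ ∈ Γ, γ ∈ K := by
    intro γ hγ
    rcases Finset.mem_union.1 hγ with h | h
    · obtain ⟨γ', hγ', rfl⟩ := Finset.mem_image.1 h
      exact hΓm γ' hγ'
    · obtain ⟨γ', hγ', rfl⟩ := Finset.mem_image.1 h
      rw [Units.val_inv_eq_inv_val]
      exact K.inv_mem (hΓm γ' hγ')
  obtain ⟨D, hD⟩ := mainLK Pool.Agent.W320.LF.iso Pool.Agent.W216.LF.tr hCMR K (m := m) G hY.hG
    a b dg hY.hb hY.ha0 hY.haE hY.haT
    (by
      intro I hI y hyG hyI
      by_contra hy0
      obtain ⟨i, hi, h1⟩ := hY.hpos I hI y ⟨hy0, hyG⟩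
      exact h1 (hyI i hi)) Γ hΓK
  obtain ⟨C, hC⟩ := family_countL n q D
  refine ⟨D, C, fun β hβ => ?_⟩
  have h1 : ∀ (c : Ind n q → ℂ) (Nn : Option (Fin n) → ℕ) (d : Fin q → ℕ),
      IsScaling β c Nn d → SpreadL n q D β Nn d → NoAtypical K Γm m (scaled G a b c) := by
    rintro c Nn d ⟨hcN, hcd⟩ hsp Z
    have hpt : ∀ z ∈ scaled G a b c ∩ Z.locus, ∀ S : Finset (Ind n q),
        AlgebraicIndependent K (fun s : S => coords z s) → S.card + Z.codim ≤ m := by
      rintro z ⟨⟨y, hy, hz0, hz1, hz2, hz3⟩, hzZ1, hzZ2⟩ S hS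
      have hE : EData z.t z.P Z.E.codim := by
        obtain ⟨t, t0, t1, P, u⟩ := z
        obtain ⟨E, T, T0, relm, pt, hullm⟩ := Z
        cases E with
        | gen M => exact EData.gen M fun r hr => ⟨T, T0, hzZ1 r hr⟩
        | fib t₀ hj M =>
          obtain ⟨h2, h3⟩ := hzZ1
          change t = t₀ at h2
          subst h2
          exact EData.fib hj M fun r hr => ⟨T, T0, h3 r hr⟩
        | cm t₀ φ M =>
          obtain ⟨h2, h3⟩ := hzZ1
          change t = t₀ at h2
          subst h2
          exact EData.cm φ M fun r hr => ⟨T, T0, h3 r hr⟩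
      have h2 := hD β hβ Nn d hsp (fun i => c (Sum.inl i)) hcN z.t z.t0 z.t1 z.P
        (fun j => (z.u j : ℂ)) y ⟨hy.1, hy.2, hz0, hz1, hz2, fun j => ⟨(hz3 j).1, by
          rw [← hcd]
          exact (hz3 j).2⟩⟩ Z.E.codim hE Z.relm (by
          intro b hb V hV
          have h3 := congrArg (Units.val : ℂˣ → ℂ) (hzZ2 b hb)
          have h4 : ∏ j, (z.u j : ℂ) ^ b j = ((∏ j, z.u j ^ b j : ℂˣ) : ℂ) := by
            rw [Units.coe_prod]
            refine Finset.prod_congr rfl fun j _ => ?_
            rw [Units.val_zpow_eq_zpow_val]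
          rw [h4, h3]
          refine divhull_val V (s := (Γm : Set ℂˣ)) (fun γ hγ => ?_) _ Z.hullm b
          have h5 := (ValuationSubring.valuation_le_one_iff V _).2 (hV _ (hmΓ γ hγ).1)
          have h6 := (ValuationSubring.valuation_le_one_iff V _).2 (hV _ (hmΓ γ hγ).2)
          refine le_antisymm h5 ?_
          rw [Units.val_inv_eq_inv_val, map_inv₀] at h6
          have h7 : V.valuation (γ : ℂ) ≠ 0 := (map_ne_zero _).2 γ.ne_zero
          exact (inv_le_one₀ (zero_lt_iff.2 h7)).1 h6) S hS
      rw [add_assoc] at h2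
      exact h2
    refine ⟨hpt, ?_⟩
    intro s ε W f hW hcl hprime hf
    obtain ⟨w, hwW, hfw, T, hT, hdim⟩ := generic_dim_open K W hprime hcl f hf
    obtain ⟨z, hz, hwz⟩ := hW w hwW hfw
    let S : Finset (Ind n q) := T.map ε.toEmbedding
    have hS : AlgebraicIndependent K (fun s : S => coords z s) := by
      let f : S → T := fun s => ⟨ε.symm s, by
        obtain ⟨t, ht, hts⟩ := Finset.mem_map.1 s.2
        have h2 : ε.symm (s : Ind n q) = t := by
          rw [← hts]
          exact ε.symm_apply_apply t
        rw [h2]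
        exact ht⟩
      have hf : Function.Injective f := by
        intro s s' hss
        have h2 := congrArg (Subtype.val : T → Fin _) hss
        exact Subtype.ext (ε.symm.injective h2)
      have h2 := hT.comp f hf
      convert h2 using 1
      funext s
      change coords z s = w (ε.symm s)
      rw [hwz, ε.apply_symm_apply]
    have h2 := hpt z hz S hS
    rw [Finset.card_map] at h2
    calc zdim W + (Z.codim : Cardinal) ≤ (T.card : Cardinal) + (Z.codim : Cardinal) := by gcongr
      _ = ((T.card + Z.codim : ℕ) : Cardinal) := by push_cast; rfl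
      _ ≤ (m : Cardinal) := by exact_mod_cast h2
  refine ⟨h1, ?_⟩
  intro e a' hea H
  refine le_trans ?_ (hC β e a' hea H)
  have hfin : {k : ℕ | 1 ≤ k ∧ k ≤ H ∧ ¬ SpreadL n q D β (fam e k) (fam a' k)}.Finite :=
    (Set.finite_Icc 1 H).subset fun k hk => ⟨hk.1, hk.2.1⟩
  have h2 := Set.ncard_le_ncard (s := {k : ℕ | 1 ≤ k ∧ k ≤ H ∧ ¬ ∀ c : Ind n q → ℂ,
          IsScaling β c (fam e k) (fam a' k) → NoAtypical K Γm m (scaled G a b c)}) (by
    rintro k ⟨hk1, hk2, hk3⟩
    exact ⟨hk1, hk2, fun hs => hk3 fun c hc => h1 c _ _ hc hs⟩) hfin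
  exact_mod_cast h2

end Pool.Agent.Results.MP_a325a5_ag.LegendreScaledImages
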