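import Pool.Agent.W282.ZP.RMix2

/-!
# MP_a325a5_ag: Zilber-Pink for a positive proportion of pull-backs under rational maps
`Y(1)^n × G_m^k ⇢ ℂ^m`

Let `V` be any irreducible subvariety of `ℂ^m` and let `D` be any multidegree in `n + k` variables.
A vector `c` of integers gives the rational map `F_c = (N_1 / M_1, …, N_m / M_m)` from the mixed
Shimura variety `S = Y(1)^n × G_m^k` (`⊂ ℂ^(n + k)`) to `ℂ^m` whose numerators
`N_j = ∑_e c(j, 0, e) x^e` and denominators `M_j = ∑_e c(j, 1, e) x^e` are polynomials in all the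
`n + k` variables, with all exponent vectors `e ≤ D`. For a positive proportion of the vectors `c`
(in every box, in every residue class) the pull-back `F_c⁻¹(V)` has the expected dimension and
no atypical subvariety: every irreducible subset `A` of the intersection of (the Zariski closure
of) `F_c⁻¹(V)` with a special subvariety `Z × T` of `S` satisfies
`dim A ≤ dim Z + dim T - (m - dim V)`. The same holds for the larger class of the `Z × T` for
which the constant modular coordinates are special, isogenous to an element of a given finite set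
`Γ` of complex numbers, or integral over `ℤ[Γ]` and for which `T` is a coset of an algebraic
subgroup through a point of the division hull of `Γ`.
-/

set_option autoImplicit false

namespace Pool.Agent.Results.MP_a325a5_ag.MixedRandomMaps

open H294ZP UpperHalfPlane MvPolynomial Pool.Agent.W282.ZP Pool.Agent.W282.ZP.RM

/-- A special subvariety of `Y(1)^n = ℂ^n` of dimension `r` (with more constants allowed): a map
`cls` from the coordinates onto `r` classes (`none` for constant coordinates), an integral matrix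
of positive determinant for every coordinate, and a constant for every coordinate, which is a
special point, isogenous to an element of `Γ`, or integral over `ℤ[Γ]`. -/
structure ModularDatum (Γ : Finset ℂ) (n r : ℕ) where
  cls : Fin n → Option (Fin r)
  surj : ∀ l : Fin r, ∃ i, cls i = some l
  mat : Fin n → Matrix (Fin 2) (Fin 2) ℤ
  det_pos : ∀ i, 0 < (mat i).det
  const : Fin n → ℂ
  allowed : ∀ i, AllowedConst Γ (const i)

/-- The points of the special subvariety: the constant coordinates are the given constants, and the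
coordinates of class `l` are `j (g_i z_l)`, with a free parameter `z_l` in the upper half plane. -/
def ModularDatum.locus {Γ : Finset ℂ} {n r : ℕ} (Z : ModularDatum Γ n r) : Set (Fin n → ℂ) :=
  {x | ∃ z : Fin r → ℍ, ∀ i, (Z.cls i = none → x i = Z.const i) ∧
    ∀ l, Z.cls i = some l → ∃ w : ℍ,
      (w : ℂ) * (Z.mat i 1 0 * z l + Z.mat i 1 1) = Z.mat i 0 0 * z l + Z.mat i 0 1 ∧
      x i = jj w}

/-- The coset `{y | y ^ a = η ^ a for all a in Λ}` of an algebraic subgroup of `(ℂ^×)^k`, of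
dimension `k - rank Λ`. -/
def coset {k : ℕ} (Λ : Submodule ℤ (Fin k → ℤ)) (η : Fin k → ℂ) : Set (Fin k → ℂ) :=
  {y | (∀ i, y i ≠ 0) ∧ ∀ a ∈ Λ, ∏ i, y i ^ a i = ∏ i, η i ^ a i}

/-- The coefficient vectors of the rational maps of multidegree `D` from `ℂ^(n + k)` to `ℂ^m`: the
coefficient of `x^e` in the numerator (`0`) and in the denominator (`1`) of the `j`-th component. -/
abbrev Coeffs (m : ℕ) {n k : ℕ} (D : Fin n ⊕ Fin k → ℕ) : Type := Fin m × Fin 2 × Ex D → ℤ

/-- The numerator of the `j`-th component at `x`. -/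
def num {m n k : ℕ} {D : Fin n ⊕ Fin k → ℕ} (c : Coeffs m D) (j : Fin m)
    (x : Fin n ⊕ Fin k → ℂ) : ℂ :=
  ∑ e : Ex D, (c (j, 0, e) : ℂ) * ∏ i, x i ^ (e i : ℕ)

/-- The denominator of the `j`-th component at `x`. -/
def den {m n k : ℕ} {D : Fin n ⊕ Fin k → ℕ} (c : Coeffs m D) (j : Fin m)
    (x : Fin n ⊕ Fin k → ℂ) : ℂ :=
  ∑ e : Ex D, (c (j, 1, e) : ℂ) * ∏ i, x i ^ (e i : ℕ)

/-- The pull-back of `V` under the rational map with coefficient vector `c`. -/
def pullback {m n k : ℕ} {D : Fin n ⊕ Fin k → ℕ} (c : Coeffs m D) (V : Set (Fin m → ℂ)) :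
    Set (Fin n ⊕ Fin k → ℂ) :=
  {x | (∀ j, den c j x ≠ 0) ∧ (fun j => num c j x / den c j x) ∈ V}

/-- `F_c⁻¹(V)` has no atypical intersections with special subvarieties `Z × T` of
`Y(1)^n × G_m^k`, `dim Z = r`, `dim T = k - rank Λ`. -/
def NoAtypical (Γ : Finset ℂ) {m n k : ℕ} {D : Fin n ⊕ Fin k → ℕ} (c : Coeffs m D)
    (V : Set (Fin m → ℂ)) : Prop :=
  ∀ (r : ℕ) (Z : ModularDatum Γ n r) (Λ : Submodule ℤ (Fin k → ℤ)) (η : Fin k → ℂ),
    (∀ i, DivHull Γ (η i)) → ∀ A : Set (Fin n ⊕ Fin k → ℂ), A ⊆ zcl (pullback c V) →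
      (∀ x ∈ A, (fun i => x (Sum.inl i)) ∈ Z.locus ∧ (fun i => x (Sum.inr i)) ∈ coset Λ η) →
        (idealOf A).IsPrime →
          zdim A + (m : Cardinal) + (Module.finrank ℤ Λ : Cardinal) ≤
            zdim V + (r : Cardinal) + (k : Cardinal)

/-- For every irreducible `V ⊂ ℂ^m`, every multidegree `D` and every finite set `Γ`, in every
residue class modulo any `Q₀` and in every box `H u + [-ε H, ε H]^N` there is a positive proportion
of integer vectors `c` for which `F_c⁻¹(V)` has no atypical intersections. -/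
theorem result (n k m : ℕ) (V : Set (Fin m → ℂ)) (hV : (idealOf V).IsPrime)
    (D : Fin n ⊕ Fin k → ℕ) (Γ : Finset ℂ) (Q₀ : ℕ) (hQ₀ : 0 < Q₀) (c₀ : Coeffs m D)
    (u : Fin m × Fin 2 × Ex D → ℝ) (ε : ℝ) (hε : 0 < ε) :
    ∃ δ : ℝ, 0 < δ ∧ ∀ᶠ H : ℕ in Filter.atTop,
      δ * (H : ℝ) ^ (Fintype.card (Fin m × Fin 2 × Ex D)) ≤ Nat.card {c : Coeffs m D //
        (∀ a, |(c a : ℝ) - H * u a| ≤ ε * H) ∧ (∀ a, (Q₀ : ℤ) ∣ c a - c₀ a) ∧
          NoAtypical Γ c V} := by
  classical
  have hfin : Algebra.trdeg ℂ (MvPolynomial (Fin m) ℂ ⧸ idealOf V) < Cardinal.aleph0 :=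
    trdeg_lt_aleph0_of_finiteType
  obtain ⟨d, hd⟩ := Cardinal.lt_aleph0.1 hfin
  obtain ⟨Q, G, hQ, hmain⟩ := exists_class_rm D (idealOf V) hd Γ Q₀ hQ₀ c₀
  refine pos_proportion' Q hQ G _ (fun c hc => ?_) u ε hε
  obtain ⟨hc0, hkey⟩ := hmain c hc
  refine ⟨hc0, ?_⟩
  intro r Z Λ η hη A hAW hAZ hA
  obtain ⟨K, _, _, z, hz, T, hT, hdim⟩ := generic_point (idealOf A)
  obtain ⟨x₀, hx₀⟩ := nonempty_of_prime hA
  have haev : ∀ (j : Fin m) (s : Fin 2) (y : Fin n ⊕ Fin k → ℂ),
      aeval y (mv (fun e => c (j, s, e)) (X : _ → MvPolynomial (Fin n ⊕ Fin k) ℂ)) =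
        mv (fun e => c (j, s, e)) y := by
    intro j s y
    have h := map_mv (aeval y : MvPolynomial (Fin n ⊕ Fin k) ℂ →ₐ[ℂ] ℂ).toRingHom
      (fun e => c (j, s, e)) (X : _ → MvPolynomial (Fin n ⊕ Fin k) ℂ)
    change aeval y _ = mv _ (fun i => aeval y (X i)) at h
    rw [h]
    simp only [aeval_X]
  have hpull : ∀ (J : Finset (Fin m)) (f : MvPolynomial J ℂ),
      rename (Subtype.val : J → Fin m) f ∈ idealOf V → aeval z (gpull
        (fun j => mv (fun e => c (j, 0, e)) (X : _ → MvPolynomial (Fin n ⊕ Fin k) ℂ))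
        (fun j => mv (fun e => c (j, 1, e)) (X : _ → MvPolynomial (Fin n ⊕ Fin k) ℂ)) f) = 0 := by
    intro J f hf
    rw [hz, mem_idealOf]
    intro x hx
    refine hAW hx _ (mem_idealOf.2 fun y hy => ?_)
    rw [← aeval_eq_eval]
    change aeval y (gpull _ _ f) = 0
    rw [aeval_gpull _ _ f y (fun j _ => by rw [haev]; exact hy.1 j)]
    simp only [haev]
    have h1 := mem_idealOf.1 hf _ hy.2
    rw [eval_rename] at h1
    rw [aeval_eq_eval]
    have h2 : eval (fun j : J => mv (fun e => c (j, 0, e)) y / mv (fun e => c (j, 1, e)) y) f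
        = 0 := h1
    change _ * eval (fun j : J => mv (fun e => c (j, 0, e)) y / mv (fun e => c (j, 1, e)) y) f
        = 0
    rw [h2, mul_zero]
  have hconst : ∀ i, Z.cls i = none → ∃ c : ℂ, IsIntegral (Algebra.adjoin ℤ (Γ : Set ℂ)) c ∧
      z (Sum.inl i) = algebraMap ℂ K c := by
    intro i hi
    refine ⟨Z.const i, (Z.allowed i).isIntegral, ?_⟩
    · have h1 : (X (Sum.inl i) - C (Z.const i) : MvPolynomial (Fin n ⊕ Fin k) ℂ) ∈ idealOf A := by
        rw [mem_idealOf]
        intro x hx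
        obtain ⟨w, hw⟩ := (hAZ x hx).1
        have h2 := (hw i).1 hi
        simp only [map_sub, eval_X, eval_C]
        exact sub_eq_zero.2 h2
      have h2 := (hz _).2 h1
      rw [map_sub, aeval_X, aeval_C, sub_eq_zero] at h2
      exact h2
  have hrel : ∀ i i' l, Z.cls i = some l → Z.cls i' = some l → Polynomial.eval₂
      (Polynomial.aeval (z (Sum.inl i)) : Polynomial ℂ →ₐ[ℂ] K).toRingHom (z (Sum.inl i'))
        (Psi ((Z.mat i).det * (Z.mat i').det).toNat) = 0 := by
    intro i i' l hi hi'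
    rw [← aeval_relPoly, hz, mem_idealOf]
    intro x hx
    obtain ⟨w, hw⟩ := (hAZ x hx).1
    obtain ⟨w1, h1, h2⟩ := (hw i).2 l hi
    obtain ⟨w2, h3, h4⟩ := (hw i').2 l hi'
    exact eval_relPoly_eq_zero (Z.det_pos i) (Z.det_pos i') h1 h3 h2 h4
  have hz0 : ∀ i, z (Sum.inr i) ≠ 0 := by
    intro i h0
    have h1 : (X (Sum.inr i) : MvPolynomial (Fin n ⊕ Fin k) ℂ) ∈ idealOf A := by
      rw [← hz, aeval_X, h0]
    have h2 := mem_idealOf.1 h1 x₀ hx₀
    rw [eval_X] at h2
    exact (hAZ x₀ hx₀).2.1 i h2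
  have hN : ∀ i i', 0 < ((Z.mat i).det * (Z.mat i').det).toNat := by
    intro i i'
    have := mul_pos (Z.det_pos i) (Z.det_pos i')
    omega
  have hfinal := hkey K z hpull r Z.cls _ hN hconst hrel hz0 Λ η hη
    (fun a ha => chi_generic Sum.inr z hz hz0 a _ fun x hx =>
      ⟨(hAZ x hx).2.1, (hAZ x hx).2.2 a ha⟩) T hT
  have h1 : zdim A ≤ (T.card : Cardinal) := hdim
  calc zdim A + (m : Cardinal) + (Module.finrank ℤ Λ : Cardinal)
      ≤ (T.card : Cardinal) + (m : Cardinal) + (Module.finrank ℤ Λ : Cardinal) := by gcongr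
    _ = ((T.card + m + Module.finrank ℤ Λ : ℕ) : Cardinal) := by push_cast; rfl
    _ ≤ ((d + r + k : ℕ) : Cardinal) := by
      have : T.card + m + Module.finrank ℤ Λ ≤ d + r + k := by omega
      exact_mod_cast this
    _ = zdim V + (r : Cardinal) + (k : Cardinal) := by
      rw [zdim, hd]; push_cast; rfl

end Pool.Agent.Results.MP_a325a5_ag.MixedRandomMaps
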